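import Pool.Agent.X12.Twelve

/-!
# The product over the quadratic residues at the primitive twelfth roots of unity
-/

set_option autoImplicit false

namespace Pool.Agent.Results.MP_de9ce4_nt.TwelfthRoots

open Finset Complex NumberField Pool.Agent.X12

/-- `S_p(x) = ∏_{k=1}^{(p-1)/2} (x - exp (2 π i k² / p))` -/
noncomputable def S (p : ℕ) (x : ℂ) : ℂ :=
  ∏ k ∈ Icc 1 ((p - 1) / 2), (x - exp (2 * Real.pi * I * (k : ℂ) ^ 2 / p))

/-- the number of the `k ∈ ℤ` with `1 ≤ k < p / 12` and `(k / p) = 1` -/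
def N (p : ℕ) : ℕ := ((Icc 1 p).filter (fun k : ℕ => 12 * k < p ∧ jacobiSym k p = 1)).card

/-- `T_p(ε) = (-1)^{⌊h/2⌋ + N_p} exp (2 π i ε (p - 1) / 48) S_p (exp (2 π i ε / 12))` -/
noncomputable def T (p h : ℕ) (ε : ℤ) : ℂ :=
  (-1) ^ (h / 2 + N p) * exp (2 * Real.pi * I * ε * (p - 1) / 48) *
    S p (exp (2 * Real.pi * I * ε / 12))

/-- For a prime `p ≡ 1 (mod 24)` both `T_p(1)` and `T_p(-1)` are positive reals; for a prime
`p ≡ 7 (mod 24)` both `T_p(1)` and `-T_p(-1)` are positive reals.  Here `K = ℚ(√-p)`. -/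
theorem result (p : ℕ) (hp : p.Prime) (K : Type) [Field K] [NumberField K]
    (hK : Module.finrank ℚ K = 2) (hs : ∃ s : K, s ^ 2 = -(p : K)) :
    (p % 24 = 1 → (∃ r : ℝ, 0 < r ∧ T p (classNumber K) 1 = r) ∧
      ∃ r : ℝ, 0 < r ∧ T p (classNumber K) (-1) = r) ∧
    (p % 24 = 7 → (∃ r : ℝ, 0 < r ∧ T p (classNumber K) 1 = r) ∧
      ∃ r : ℝ, 0 < r ∧ -T p (classNumber K) (-1) = r) := by
  have : Fact p.Prime := ⟨hp⟩
  have hT : ∀ (n : ℕ) (ε : ℤ), p = 2 * n + 1 → T p (classNumber K) ε =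
      (-1) ^ (classNumber K / 2 + NQ p) * exp (2 * Real.pi * I * ε * (1 : ℤ) * (p - 1) / 48) *
        SQ p (exp (2 * Real.pi * I * ε / 12)) := by
    intro n ε hn
    rw [T, N, N_eq_NQ, S, show (p - 1) / 2 = n by omega, S_eq_SQ hn]
    push_cast
    rw [mul_one]
  refine ⟨fun h24 => ?_, fun h24 => ?_⟩
  · obtain ⟨m, hm⟩ : ∃ m : ℕ, p = 24 * m + 1 := ⟨p / 24, by omega⟩
    have hn : p = 2 * (12 * m) + 1 := by omega
    have hm0 : 0 < m := by
      rcases Nat.eq_zero_or_pos m with h | h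
      · exfalso; rw [h] at hm; exact hp.one_lt.ne' (by omega)
      · exact h
    have hcl := class_mod_four (p := p) (by omega) hK hs
    rw [if_pos (by omega)] at hcl
    have hh := sum_val_one (p := p) (by omega)
    constructor
    · obtain ⟨r, B, hr, hB, he⟩ := final_sign hn (by omega) (c := 14 * m) hh 1 (Or.inl rfl) 1
        (by push_cast; ring) (classNumber K / 2 + NQ p)
      refine ⟨r, hr, ?_⟩
      rw [if_pos rfl] at hB
      have hev : Even (classNumber K / 2 + NQ p + (14 * m : ℤ).natAbs + B) := by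
        rw [Nat.even_iff]; omega
      rw [hT _ _ hn, he, hev.neg_one_pow, one_mul]
    · obtain ⟨r, B, hr, hB, he⟩ := final_sign hn (by omega) (c := 10 * m) hh (-1) (Or.inr rfl) 1
        (by push_cast; ring) (classNumber K / 2 + NQ p)
      refine ⟨r, hr, ?_⟩
      rw [if_neg (by norm_num), NQ_one (by omega)] at hB
      have hev : Even (classNumber K / 2 + NQ p + (10 * m : ℤ).natAbs + B) := by
        rw [Nat.even_iff]; omega
      rw [hT _ _ hn, he, hev.neg_one_pow, one_mul]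
  · obtain ⟨m, hm⟩ : ∃ m : ℕ, p = 24 * m + 7 := ⟨p / 24, by omega⟩
    have hn : p = 2 * (12 * m + 3) + 1 := by omega
    obtain ⟨s, hs⟩ := hs
    have hh := sum_val_three (p := p) (by omega) (by omega) hK hs
    obtain ⟨j, hj⟩ : ∃ j : ℕ, classNumber K = 2 * j + 1 := by
      obtain ⟨k, hk⟩ := parity_h hn hh
      exact ⟨classNumber K / 2, by omega⟩
    have hN3 := NQ_three (p := p) (by omega)
    constructor
    · obtain ⟨r, B, hr, hB, he⟩ := final_sign hn (by omega) (c := 14 * m + 3 - j) hh 1 (Or.inl rfl) 1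
        (by rw [hj]; push_cast; ring) (classNumber K / 2 + NQ p)
      refine ⟨r, hr, ?_⟩
      rw [if_pos rfl] at hB
      have hev : Even (classNumber K / 2 + NQ p + (14 * m + 3 - j : ℤ).natAbs + B) := by
        rw [Nat.even_iff]; omega
      rw [hT _ _ hn, he, hev.neg_one_pow, one_mul]
    · obtain ⟨r, B, hr, hB, he⟩ := final_sign hn (by omega) (c := 10 * m + 2 - j) hh (-1) (Or.inr rfl) 1
        (by rw [hj]; push_cast; ring) (classNumber K / 2 + NQ p)
      refine ⟨r, hr, ?_⟩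
      rw [if_neg (by norm_num)] at hB
      have hev : Odd (classNumber K / 2 + NQ p + (10 * m + 2 - j : ℤ).natAbs + B) := by
        rw [Nat.odd_iff]; omega
      rw [hT _ _ hn, he, hev.neg_one_pow]
      ring

end Pool.Agent.Results.MP_de9ce4_nt.TwelfthRoots
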